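import Pool.Agent.W650.Final

set_option autoImplicit false

/-!
# Horrocks' bound for finite length modules with a coarse multigrading

`M` is a nonzero module of finite length over `k[X_1, …, X_m]`, supported at the origin, and graded
by `ℤ^r` so that `X_j` has degree `deg j`. No more than four variables have degree zero, and for
every coordinate `t` no more than two variables have `t` as the first nonzero coordinate of their
degree. Then every resolution of `M` by finite free modules has `rank F_i ≥ m.choose i`.
-/

namespace Pool.Agent.Results.MP_e2ce73_al.PartialMultigrading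

open MvPolynomial Pool.Agent.W650

universe u v

theorem result (k : Type u) [Field k] (m r : ℕ) (deg : Fin m → Fin r → ℤ)
    (h4 : {j : Fin m | deg j = 0}.ncard ≤ 4)
    (h2 : ∀ t : Fin r, {j : Fin m | deg j t ≠ 0 ∧ ∀ u < t, deg j u = 0}.ncard ≤ 2)
    (M : Type v) [AddCommGroup M] [Module k M] [FiniteDimensional k M] [Nontrivial M]
    [Module (MvPolynomial (Fin m) k) M] [IsScalarTower k (MvPolynomial (Fin m) k) M]
    (ℳ : (Fin r → ℤ) → Submodule k M) (hℳ : DirectSum.IsInternal ℳ)
    (hX : ∀ (j : Fin m) (a : Fin r → ℤ), ∀ x ∈ ℳ a,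
      (X j : MvPolynomial (Fin m) k) • x ∈ ℳ (a + deg j))
    (hnil : ∀ j : Fin m, ∃ N : ℕ, ∀ x : M, (X j : MvPolynomial (Fin m) k) ^ N • x = 0)
    (F : ℕ → Type v) [∀ i, AddCommGroup (F i)] [∀ i, Module (MvPolynomial (Fin m) k) (F i)]
    [∀ i, Module.Free (MvPolynomial (Fin m) k) (F i)]
    [∀ i, Module.Finite (MvPolynomial (Fin m) k) (F i)]
    (d : ∀ i, F (i + 1) →ₗ[MvPolynomial (Fin m) k] F i)
    (ε : F 0 →ₗ[MvPolynomial (Fin m) k] M) (hε : Function.Surjective ε)
    (hd0 : LinearMap.range (d 0) = LinearMap.ker ε)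
    (hd : ∀ i, LinearMap.range (d (i + 1)) = LinearMap.ker (d i)) (i : ℕ) :
    m.choose i ≤ Module.finrank (MvPolynomial (Fin m) k) (F i) := by
  obtain ⟨L, hL, hLA, hgood⟩ := exists_order m r Finset.univ deg (by simpa using h4)
    (by simpa using h2)
  have hmem : ∀ j, j ∈ L := fun j => by
    rw [← List.mem_toFinset, hLA]
    exact Finset.mem_univ j
  have hlen : L.length = m := by
    rw [← List.toFinset_card_of_nodup hL, hLA, Finset.card_univ, Fintype.card_fin]
  have hcL : ∀ (j : ℕ) (hj : j < L.length), cL k L j = X L[j] := fun j hj => by simp [cL, hj]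
  have h1 := hk_ge r M L.length (opv k (cL k L) M)
    (fun j => if h : j < L.length then deg L[j] else 0) ℳ (opv_comm _ M _) (by
      intro j hj
      obtain ⟨N, hN⟩ := hnil L[j]
      refine ⟨N, ?_⟩
      have h5 : ((opv k (cL k L) M j : Module.End k M) ^ N) =
          Algebra.lsmul k k M ((cL k L j) ^ N) := by
        rw [map_pow]
        rfl
      rw [h5, hcL j hj]
      exact LinearMap.ext hN) hℳ.submodule_iSupIndep hℳ.submodule_iSup_eq_top (by
      intro j hj a x hx
      rw [opv_apply, hcL j hj, dif_pos hj]
      exact hX _ a x hx) (hgood _ (fun j hj => by simp only [dif_pos hj])) i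
  have h3 := rank_koszul_le (cL k L) L.length (cL_regular L hL) (cL_const (k := k) L hmem) i M F d ε
    hε hd0 hd
  rw [← Module.finrank_eq_rank] at h3
  have h5 : Module.finrank k ((koszul (opv k (cL k L) M) L.length).H i) ≤
      Module.finrank (MvPolynomial (Fin m) k) (F i) := by exact_mod_cast h3
  have h6 : L.length.choose i ≤ Module.finrank (MvPolynomial (Fin m) k) (F i) := h1.trans h5
  rw [hlen] at h6
  exact h6

end Pool.Agent.Results.MP_e2ce73_al.PartialMultigrading
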